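import Mathlib
import Pool.Agent.Helper941.Hyp.Defs
import Pool.Agent.Helper941.Defs

set_option autoImplicit false

namespace Pool.Agent.Y670.HC

open Pool.Agent.Helper941.Hyp

open Classical in
/-- the characteristic function of a set of natural numbers -/
noncomputable def chr (D : ℕ → Prop) (n : ℕ) : ℕ := if D n then 1 else 0

/-- The predicates that are `Σ¹₁` relative to the set `D`, in normal form: `P a` holds iff there
is a function `g : ℕ → ℕ` such that the computable predicate `R` holds of `a` and of all finite
initial segments (of the same length) of the characteristic function of `D` and of `g`. -/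
def Sigma11In (D : ℕ → Prop) {α : Type} [Primcodable α] (P : α → Prop) : Prop :=
  ∃ R : α × List ℕ × List ℕ → Prop, ComputablePred R ∧
    ∀ a, P a ↔ ∃ g : ℕ → ℕ, ∀ n, R (a, (List.range n).map (chr D), (List.range n).map g)

/-- The predicates that are `Δ¹₁` relative to the set `D` (hyperarithmetic in `D`). -/
def Delta11In (D : ℕ → Prop) {α : Type} [Primcodable α] (P : α → Prop) : Prop :=
  Sigma11In D P ∧ Sigma11In D fun a => ¬ P a

variable {ar : ℕ → ℕ}

/-- `f` is an isomorphism from `A` onto `B`. -/
def IsIsom (A B : Struct ar) (f : ℕ ≃ ℕ) : Prop := ∀ i v, A i v ↔ B i fun k => f (v k)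

/-- `A` is computably categorical: any two computable copies of `A` are isomorphic by a
computable isomorphism. -/
def CompCat (A : Struct ar) : Prop :=
  ∀ B C : Struct ar, IsComputable B → IsComputable C → Iso A B → Iso A C →
    ∃ f : ℕ ≃ ℕ, IsIsom B C f ∧ Computable f

/-- `f` is hyperarithmetic in the atomic diagram of `B`: its graph is `Δ¹₁` relative to it. -/
def HypIn (f : ℕ ≃ ℕ) (B : Struct ar) : Prop :=
  Delta11In (Diag B) fun p : ℕ × ℕ => f p.1 = p.2

/-- `A` is relatively hyperarithmetically categorical: for every copy `B` of `A` some isomorphism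
from `A` onto `B` is hyperarithmetic in the atomic diagram of `B`. -/
def RelHypCat (A : Struct ar) : Prop :=
  ∀ B : Struct ar, Iso A B → ∃ f : ℕ ≃ ℕ, IsIsom A B f ∧ HypIn f B

end Pool.Agent.Y670.HC
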