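import Mathlib
import Pool.Agent.Y542.SigF

set_option autoImplicit false
set_option maxHeartbeats 400000

namespace Pool.Agent.Y670.HC

open Encodable Denumerable Nat.Partrec Pool.Agent.Helper941 Pool.Agent.Helper941.IsoProb
open Pool.Agent.Helper941.Zeta Pool.Agent.Helper941.Hyp Pool.Agent.Y542

/-! ### initial segments -/

theorem tk_length (l : List ℕ) (m : ℕ) : (tk l m).length = m := by simp [tk]

theorem gt_tk {l : List ℕ} {m i : ℕ} (h : i < m) : gt (tk l m) i = gt l i := gt_range (gt l) h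

theorem tk_tk {l : List ℕ} {m n : ℕ} (h : n ≤ m) : tk (tk l m) n = tk l n := tk_range (gt l) h

theorem tk_zero (l : List ℕ) : tk l 0 = [] := rfl

theorem tk_succ (l : List ℕ) (n : ℕ) : tk l (n + 1) = tk l n ++ [gt l n] := by
  unfold tk
  rw [List.range_succ, List.map_append]
  rfl

theorem tk_self (l : List ℕ) : tk l l.length = l := by
  refine List.ext_getElem? fun i => ?_
  by_cases h : i < l.length
  · have h1 : i < (tk l l.length).length := by rw [tk_length]; exact h
    have h2 := gt_tk (l := l) h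
    unfold gt at h2
    rw [List.getElem?_eq_getElem h1, List.getElem?_eq_getElem h] at h2
    rw [List.getElem?_eq_getElem h1, List.getElem?_eq_getElem h]
    simpa using h2
  · rw [List.getElem?_eq_none (by rw [tk_length]; omega), List.getElem?_eq_none (by omega)]

theorem tk_full {l : List ℕ} {n : ℕ} (h : l.length = n) : tk l n = l := by
  rw [← h]; exact tk_self l

/-- closed under initial segments -/
def Cl (S : List ℕ → Prop) : Prop := ∀ l m, m ≤ l.length → S l → S (tk l m)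

theorem ut_cl (e x : ℕ) : Cl (UT e x) := by
  intro l m hm h k hk hh
  rw [tk_length] at hk hh
  rw [tk_tk (by omega)] at hh
  exact h k (by omega) (haltsIn_mono _ _ (by omega) hh)

/-! ### monotone maps between trees -/

/-- the list `l'` is the image of `l` under the map given by `H` -/
def Img (H : ℕ → ℕ) (l l' : List ℕ) : Prop :=
  l'.length = l.length ∧ ∀ i, i < l.length → H (encode (tk l (i + 1))) = gt l' i

/-- there is a level preserving monotone map from `S` to `T` -/
def Emb (S T : List ℕ → Prop) : Prop := ∃ H : ℕ → ℕ, ∀ l l', Img H l l' → S l → T l'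

theorem emb_path {S T : List ℕ → Prop} (h : Emb S T) (hp : ∃ f, ∀ n, S (rs f n)) :
    ∃ f, ∀ n, T (rs f n) := by
  obtain ⟨H, hH⟩ := h
  obtain ⟨f, hf⟩ := hp
  refine ⟨fun i => H (encode (rs f (i + 1))), fun n => hH _ _ ⟨?_, fun i hi => ?_⟩ (hf n)⟩
  · rw [rs_length, rs_length]
  · rw [rs_length] at hi
    rw [gt_rs _ hi, tk_rs _ (by omega)]

section
open Classical in
/-- the choice of the next entry -/
noncomputable def ch (T : List ℕ → Prop) (Z : List ℕ → List ℕ → Prop) (σ τ : List ℕ) : ℕ :=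
  if h : ∃ y, T (τ ++ [y]) ∧ Z σ (τ ++ [y]) then h.choose else 0

theorem ch_spec {T : List ℕ → Prop} {Z : List ℕ → List ℕ → Prop} {σ τ : List ℕ}
    (h : ∃ y, T (τ ++ [y]) ∧ Z σ (τ ++ [y])) :
    T (τ ++ [ch T Z σ τ]) ∧ Z σ (τ ++ [ch T Z σ τ]) := by
  unfold ch
  rw [dif_pos h]
  exact h.choose_spec

noncomputable def Ph (T : List ℕ → Prop) (Z : List ℕ → List ℕ → Prop) (l : List ℕ) (n : ℕ) :
    List ℕ := Nat.rec [] (fun i acc => acc ++ [ch T Z (tk l (i + 1)) acc]) n

variable {S T : List ℕ → Prop} {Z : List ℕ → List ℕ → Prop}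

theorem ph_succ (l : List ℕ) (n : ℕ) :
    Ph T Z l (n + 1) = Ph T Z l n ++ [ch T Z (tk l (n + 1)) (Ph T Z l n)] := rfl

theorem ph_tk {l : List ℕ} {m n : ℕ} (h : n ≤ m) : Ph T Z (tk l m) n = Ph T Z l n := by
  induction n with
  | zero => rfl
  | succ n ih => rw [ph_succ, ph_succ, ih (by omega), tk_tk h]

theorem emb_of_sim (hS : Cl S) (hT : T []) (h0 : Z [] [])
    (hZ : ∀ σ τ x, Z σ τ → S (σ ++ [x]) → ∃ y, T (τ ++ [y]) ∧ Z (σ ++ [x]) (τ ++ [y])) :
    Emb S T := by
  refine ⟨fun c => ch T Z (ofNat (List ℕ) c) (Ph T Z (ofNat (List ℕ) c)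
    ((ofNat (List ℕ) c).length - 1)), fun l l' hI hl => ?_⟩
  obtain ⟨h1, h2⟩ := hI
  have key : ∀ n, n ≤ l.length → T (Ph T Z l n) ∧ Z (tk l n) (Ph T Z l n) := by
    intro n
    induction n with
    | zero => intro _; exact ⟨hT, h0⟩
    | succ n ih =>
      intro hn
      obtain ⟨_, h4⟩ := ih (by omega)
      have h5 := hS l (n + 1) hn hl
      rw [tk_succ] at h5
      have h6 := hZ _ _ _ h4 h5
      rw [← tk_succ] at h6
      exact ch_spec h6
  have img : ∀ n, n ≤ l.length → tk l' n = Ph T Z l n := by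
    intro n
    induction n with
    | zero => intro _; rfl
    | succ n ih =>
      intro hn
      rw [tk_succ, ih (by omega), ph_succ, ← h2 n (by omega)]
      simp only [ofNat_encode]
      rw [tk_length, Nat.add_sub_cancel, ph_tk (by omega)]
  have h3 := img l.length (le_refl _)
  rw [tk_full h1] at h3
  rw [h3]
  exact (key _ (le_refl _)).1

/-- any two trees are comparable -/
theorem emb_total (hS : Cl S) (hT : Cl T) : Emb S T ∨ Emb T S := by
  by_cases h1 : S []
  · by_cases h2 : T []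
    · let Sim : List ℕ → List ℕ → Prop := fun σ τ => ∃ Z : List ℕ → List ℕ → Prop, Z σ τ ∧
        ∀ σ τ x, Z σ τ → S (σ ++ [x]) → ∃ y, T (τ ++ [y]) ∧ Z (σ ++ [x]) (τ ++ [y])
      by_cases h3 : Sim [] []
      · obtain ⟨Z, h4, h5⟩ := h3
        exact Or.inl (emb_of_sim hS h2 h4 h5)
      · right
        refine emb_of_sim (Z := fun τ σ => ¬ Sim σ τ) hT h1 h3 fun τ σ y h4 h5 => ?_
        by_contra hc
        push Not at hc
        apply h4
        refine ⟨fun a b => (a = σ ∧ b = τ) ∨ Sim a b, Or.inl ⟨rfl, rfl⟩, fun a b x h6 h7 => ?_⟩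
        rcases h6 with ⟨rfl, rfl⟩ | ⟨Z, h8, h9⟩
        · exact ⟨y, h5, Or.inr (hc x h7)⟩
        · obtain ⟨z, h10, h11⟩ := h9 a b x h8 h7
          exact ⟨z, h10, Or.inr ⟨Z, h11, h9⟩⟩
    · right
      exact ⟨fun _ => 0, fun l l' _ hl => (h2 (hT l 0 (by omega) hl)).elim⟩
  · left
    exact ⟨fun _ => 0, fun l l' _ hl => (h1 (hS l 0 (by omega) hl)).elim⟩

end

/-! ### complexity -/

theorem p_UT {α : Type} [Primcodable α] {e x : α → ℕ} {l : α → List ℕ} (he : Computable e)
    (hx : Computable x) (hl : Computable l) : ComputablePred fun a => UT (e a) (x a) (l a) := by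
  unfold UT
  have h1 : Computable fun p : α × ℕ => haltsIn (ofNat Code (e p.1))
      (Nat.pair (x p.1) (encode (tk (l p.1) p.2))) (l p.1).length := by
    have h : Computable fun q : ℕ × ℕ × ℕ => haltsIn (ofNat Code q.1) q.2.1 q.2.2 :=
      (primrec_haltsIn ((Primrec.ofNat Code).comp Primrec.fst) (Primrec.fst.comp Primrec.snd)
        (Primrec.snd.comp Primrec.snd)).to_comp
    exact h.comp (c_pair (he.comp (c_fst c_id)) (c_pair (c_npair (hx.comp (c_fst c_id))
      (Computable.encode.comp (c_tk (hl.comp (c_fst c_id)) (c_snd c_id))))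
      (Computable.list_length.comp (hl.comp (c_fst c_id)))))
  exact p_ball (c_succ (Computable.list_length.comp hl)) (p_not (p_of_bool h1))

theorem delF_img : DelF fun (p : List ℕ × List ℕ) H => Img H p.1 p.2 := by
  refine (DelF.of_computable (p_eq (Computable.list_length.comp (c_snd c_id))
    (Computable.list_length.comp (c_fst c_id)))).and ?_
  refine DelF.all (P := fun (q : (List ℕ × List ℕ) × ℕ) H => q.2 < q.1.1.length →
    H (encode (tk q.1.1 (q.2 + 1))) = gt q.1.2 q.2) ?_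
  refine (DelF.of_computable (p_lt (c_snd c_id)
    (Computable.list_length.comp (c_fst (c_fst c_id))))).imp ?_
  exact DelF.val (Q := fun r : ((List ℕ × List ℕ) × ℕ) × ℕ => r.2 = gt r.1.1.2 r.1.2)
    (u := fun q : (List ℕ × List ℕ) × ℕ => encode (tk q.1.1 (q.2 + 1)))
    (p_eq (c_snd c_id) (c_gt (c_snd (c_fst (c_fst c_id))) (c_snd (c_fst c_id))))
    (Computable.encode.comp (c_tk (c_fst (c_fst c_id)) (c_succ (c_snd c_id))))

theorem sigma_emb {α : Type} [Primcodable α] {a b x : α → ℕ} (ha : Computable a)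
    (hb : Computable b) (hx : Computable x) :
    Sigma11 fun n => Emb (UT (a n) (x n)) (UT (b n) (x n)) := by
  have h1 : DelF fun (p : α × List ℕ × List ℕ) H => Img H p.2.1 p.2.2 →
      UT (a p.1) (x p.1) p.2.1 → UT (b p.1) (x p.1) p.2.2 :=
    (delF_img.comp (t := fun p : α × List ℕ × List ℕ => p.2) (c_snd c_id)).imp
      ((DelF.of_computable (p_UT (ha.comp (c_fst c_id)) (hx.comp (c_fst c_id))
        (c_fst (c_snd c_id)))).imp
      (DelF.of_computable (p_UT (hb.comp (c_fst c_id)) (hx.comp (c_fst c_id))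
        (c_snd (c_snd c_id)))))
  refine h1.all'.1.fn.of_iff fun n => exists_congr fun H => ?_
  exact ⟨fun h y => h y.1 y.2, fun h l l' => h (l, l')⟩

/-! ### a `Σ¹₁` class without hyperarithmetic elements -/

/-- the class -/
def KC (f : ℕ → ℕ) : Prop := ∀ n, (f n = 0 ∨ Emb (UT n.unpair.1 n) (UT n.unpair.2 n)) ∧
  (f n ≠ 0 ∨ Emb (UT n.unpair.2 n) (UT n.unpair.1 n))

theorem kc_exists : ∃ f, KC f := by
  classical
  refine ⟨fun n => if Emb (UT n.unpair.2 n) (UT n.unpair.1 n) then 0 else 1, fun n => ?_⟩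
  by_cases h : Emb (UT n.unpair.2 n) (UT n.unpair.1 n)
  · exact ⟨Or.inl (if_pos h), Or.inr h⟩
  · refine ⟨Or.inr ?_, Or.inl (by simp only [if_neg h]; norm_num)⟩
    rcases emb_total (ut_cl n.unpair.1 n) (ut_cl n.unpair.2 n) with h1 | h1
    · exact h1
    · exact (h h1).elim

theorem kc_not_delta {f : ℕ → ℕ} (hf : KC f) : ¬ Delta11 fun p : ℕ × ℕ => f p.1 = p.2 := by
  intro h
  have hD : Delta11 fun n : ℕ => f n = 0 :=
    h.comp (f := fun n : ℕ => (n, 0)) (c_pair c_id (c_const 0))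
  obtain ⟨b, hb⟩ := universal11 hD.1
  obtain ⟨a, ha⟩ := universal11 hD.2
  have h1 := hf (Nat.pair a b)
  rw [Nat.unpair_pair] at h1
  simp only at h1
  have h2 := hb (Nat.pair a b)
  have h3 := ha (Nat.pair a b)
  by_cases hn : f (Nat.pair a b) = 0
  · have h4 : Emb (UT b (Nat.pair a b)) (UT a (Nat.pair a b)) := by
      rcases h1.2 with h5 | h5
      · exact (h5 hn).elim
      · exact h5
    have h6 : UU1 a (Nat.pair a b) := emb_path h4 (h2.1 hn)
    exact h3.2 h6 hn
  · have h4 : Emb (UT a (Nat.pair a b)) (UT b (Nat.pair a b)) := by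
      rcases h1.1 with h5 | h5
      · exact (hn h5).elim
      · exact h5
    have h6 : UU1 b (Nat.pair a b) := emb_path h4 (h3.1 hn)
    exact hn (h2.2 h6)

theorem sigF_KC : SigF fun (_ : ℕ) f => KC f := by
  refine SigF.all (P := fun (p : ℕ × ℕ) f =>
    (f p.2 = 0 ∨ Emb (UT p.2.unpair.1 p.2) (UT p.2.unpair.2 p.2)) ∧
    (f p.2 ≠ 0 ∨ Emb (UT p.2.unpair.2 p.2) (UT p.2.unpair.1 p.2))) ?_
  have h0 : ComputablePred fun q : (ℕ × ℕ) × ℕ => q.2 = 0 := p_eq (c_snd c_id) (c_const 0)
  have h1 : SigF fun (p : ℕ × ℕ) f => f p.2 = 0 :=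
    SigF.val (Q := fun q : (ℕ × ℕ) × ℕ => q.2 = 0) (u := fun p : ℕ × ℕ => p.2) h0 (c_snd c_id)
  have h2 : SigF fun (p : ℕ × ℕ) f => f p.2 ≠ 0 :=
    SigF.val (Q := fun q : (ℕ × ℕ) × ℕ => ¬ q.2 = 0) (u := fun p : ℕ × ℕ => p.2) (p_not h0)
      (c_snd c_id)
  exact (h1.or (SigF.of_sigma (sigma_emb (c_up1 (c_snd c_id)) (c_up2 (c_snd c_id))
    (c_snd c_id)))).and (h2.or (SigF.of_sigma (sigma_emb (c_up2 (c_snd c_id))
      (c_up1 (c_snd c_id)) (c_snd c_id))))

theorem cl_tk {l : List ℕ} {i n m : ℕ} (h : Nat.pair i n ≤ m) : cl (tk l m) i n = cl l i n := by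
  unfold cl
  refine List.map_congr_left fun k hk => ?_
  have hk' : k < n := List.mem_range.1 hk
  have := Nat.pair_lt_pair_right i hk'
  exact gt_tk (by omega)

/-- a computable tree which has an infinite path but no hyperarithmetic infinite path -/
theorem exists_tree : ∃ T : List ℕ → Prop, ComputablePred T ∧ Cl T ∧
    (∃ f, ∀ n, T (rs f n)) ∧
    ∀ f, (∀ n, T (rs f n)) → ¬ Delta11 fun p : ℕ × ℕ => f p.1 = p.2 := by
  obtain ⟨R, hR, e⟩ := sigF_KC
  refine ⟨fun l => ∀ n < l.length, Nat.pair 0 n + Nat.pair 1 n ≤ l.length →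
    R (0, cl l 0 n, cl l 1 n), ?_, ?_, ?_, ?_⟩
  · have h1 : Computable fun q : List ℕ × ℕ => Nat.pair 0 q.2 + Nat.pair 1 q.2 :=
      c_add (c_npair (c_const 0) (c_snd c_id)) (c_npair (c_const 1) (c_snd c_id))
    exact p_ball (Computable.list_length.comp c_id) (p_imp (p_le h1
      (Computable.list_length.comp (c_fst c_id))) (computablePred_comp hR
        (c_pair (c_const 0) (c_pair (c_cl (c_fst c_id) (c_const 0) (c_snd c_id))
          (c_cl (c_fst c_id) (c_const 1) (c_snd c_id))))))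
  · intro l m hm h n hn hn'
    rw [tk_length] at hn hn'
    rw [cl_tk (by omega), cl_tk (by omega)]
    exact h n (by omega) (by omega)
  · obtain ⟨f, hf⟩ := kc_exists
    obtain ⟨g, hg⟩ := (e 0 f).1 hf
    refine ⟨fun x => if x.unpair.1 = 0 then f x.unpair.2 else g x.unpair.2,
      fun k n _ hk => ?_⟩
    rw [rs_length] at hk
    rw [cl_rs _ (by omega), cl_rs _ (by omega)]
    simp only [Nat.unpair_pair]
    exact hg n
  · intro f hf hd
    have h1 : KC fun k => f (Nat.pair 0 k) := by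
      refine (e 0 _).2 ⟨fun k => f (Nat.pair 1 k), fun n => ?_⟩
      have h2 := hf (n + 1 + (Nat.pair 0 n + Nat.pair 1 n)) n
        (by rw [rs_length]; omega) (by rw [rs_length]; omega)
      rwa [cl_rs _ (by omega), cl_rs _ (by omega)] at h2
    exact kc_not_delta h1 (hd.comp (f := fun p : ℕ × ℕ => (Nat.pair 0 p.1, p.2))
      (c_pair (c_npair (c_const 0) (c_fst c_id)) (c_snd c_id)))

end Pool.Agent.Y670.HC
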