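import Mathlib
import Pool.Agent.Helper941.Hyp.Ind
import Pool.Agent.Helper941.Dim.Bridge
import Pool.Agent.Y670.HC.Tree

set_option autoImplicit false
set_option maxHeartbeats 400000

namespace Pool.Agent.Y670.HC

open Encodable Denumerable Nat.Partrec Pool.Agent.Helper941 Pool.Agent.Helper941.IsoProb
open Pool.Agent.Helper941.Zeta Pool.Agent.Helper941.Hyp Pool.Agent.Helper941.Dim
open Pool.Agent.Y542

/-! ### the tree of labels -/

/-- the sequence coded by `j` without its first entry -/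
def tlj (j : ℕ) : List ℕ := (List.range (len j - 1)).map fun i => dig j (i + 1)

def HCT (T0 : List ℕ → Prop) (j : ℕ) : Prop := T0 (tlj j)

theorem tlj_zero : tlj 0 = [] := by
  unfold tlj
  rw [len_zero]
  rfl

theorem tlj_length (j : ℕ) : (tlj j).length = len j - 1 := by simp [tlj]

theorem tlj_prn {j : ℕ} (hj : 1 ≤ j) : tlj (prn j) = tk (tlj j) (len j - 1 - 1) := by
  have h1 := len_prn hj
  have h2 : len (prn j) - 1 = len j - 1 - 1 := by omega
  unfold tlj tk
  rw [h2]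
  refine List.map_congr_left fun i hi => ?_
  have hi' : i < len j - 1 - 1 := List.mem_range.1 hi
  rw [gt_range (fun i => dig j (i + 1)) (by omega)]
  exact dig_prn hj (by omega)

theorem tlj_nod (g : ℕ → ℕ) (n : ℕ) : tlj (nod g (n + 1)) = rs (fun i => g (i + 1)) n := by
  unfold tlj rs
  rw [len_nod, Nat.add_sub_cancel]
  refine List.map_congr_left fun i hi => ?_
  have hi' : i < n := List.mem_range.1 hi
  exact dig_nod g (by omega)

variable {T0 : List ℕ → Prop}

theorem th_HC (hcl : Cl T0) (h0 : T0 []) : TH (HCT T0) prn where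
  zero := by
    unfold HCT
    rw [tlj_zero]
    exact h0
  up := by
    intro j hj h
    unfold HCT at h ⊢
    rw [tlj_prn hj]
    exact hcl _ _ (by rw [tlj_length]; omega) h
  lt := fun _ hj => prn_lt hj

theorem p_HC (hT : ComputablePred T0) : ComputablePred (HCT T0) := by
  have h1 : Computable tlj :=
    c_tab (c_sub (c_lenj c_id) (c_const 1)) (c_dig (c_fst c_id) (c_succ (c_snd c_id)))
  exact computablePred_comp hT h1

/-! ### the structure -/

/-- the structure -/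
def MM (pa : ℕ → ℕ) : Str := fun i x y => i ≠ 0 ∧ Rel pa false i (el pa x) (el pa y)

theorem mm_comp {pa : ℕ → ℕ} (hpa : Computable pa) : IsComp (MM pa) :=
  p_and (p_not (p_eq (c_fst c_id) (c_const 0))) (as_comp hpa false)

/-- the structure is computably categorical -/
theorem mm_cc {T : ℕ → Prop} (hT : ComputablePred T) (hTH : TH T prn) {B : Str}
    (hB : IsComp B) {f : ℕ ≃ ℕ} (hf : ∀ i x y, MM (con T prn).pa i x y ↔ B i (f x) (f y)) :
    ∃ h : ℕ ≃ ℕ, (∀ i x y, MM (con T prn).pa i x y ↔ B i (h x) (h y)) ∧ Computable h := by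
  have h1 : RedIso (con T prn).pa B f := by
    intro i x y hi
    rw [← hf i x y]
    unfold MM
    simp [hi]
  obtain ⟨h, h2, h3⟩ := cc hT c_prn hTH hB h1
  refine ⟨h, fun i x y => ?_, h3⟩
  by_cases hi : i = 0
  · subst hi
    have h4 := hf 0 (f.symm (h x)) (f.symm (h y))
    simp only [Equiv.apply_symm_apply] at h4
    rw [← h4]
    unfold MM
    simp
  · rw [← h2 i x y hi]
    unfold MM
    simp [hi]

/-! ### the twisted copy -/

/-- the bits of `s v` are children of `v` -/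
def Chl (pa s : ℕ → ℕ) : Prop := ∀ v u, (s v).testBit u = true → 1 ≤ u ∧ pa u = v

theorem sh_valid' {pa s : ℕ → ℕ} (h : Chl pa s) {p : ℕ} (hp : Valid pa p) :
    Valid pa (sh s p) := by
  intro u hu
  rw [sh_snd, Nat.testBit_xor] at hu
  rw [sh_fst]
  by_cases h1 : p.unpair.2.testBit u = true
  · exact hp u h1
  · simp only [Bool.not_eq_true] at h1
    rw [h1] at hu
    simp only [Bool.false_bne] at hu
    exact h _ _ hu

/-- the twist -/
noncomputable def tw {pa s : ℕ → ℕ} (h : Chl pa s) : ℕ ≃ ℕ where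
  toFun := fun x => idx pa (sh s (el pa x))
  invFun := fun x => idx pa (sh s (el pa x))
  left_inv := fun x => by
    simp only
    rw [el_idx (sh_valid' h (el_valid pa x)), sh_sh, idx_el]
  right_inv := fun x => by
    simp only
    rw [el_idx (sh_valid' h (el_valid pa x)), sh_sh, idx_el]

theorem el_tw {pa s : ℕ → ℕ} (h : Chl pa s) (x : ℕ) : el pa (tw h x) = sh s (el pa x) :=
  el_idx (sh_valid' h (el_valid pa x))

/-- the twisted copy -/
def BB (pa s : ℕ → ℕ) : Str := fun i x y =>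
  i ≠ 0 ∧ Rel pa false i (sh s (el pa x)) (sh s (el pa y))

theorem bb_iso {pa s : ℕ → ℕ} (h : Chl pa s) (i x y : ℕ) :
    MM pa i x y ↔ BB pa s i (tw h x) (tw h y) := by
  unfold MM BB
  rw [el_tw, el_tw, sh_sh, sh_sh]

/-- the isomorphisms onto the twisted copy -/
theorem bb_iso_form {pa s : ℕ → ℕ} (h : Chl pa s) {f : ℕ ≃ ℕ}
    (hf : ∀ i x y, MM pa i x y ↔ BB pa s i (f x) (f y)) :
    ∃ t, Flow pa t ∧ ∀ v, (el pa (f (idx pa (Nat.pair v 0)))).unpair.2 = t v ^^^ s v := by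
  have h1 : RedIso pa (As pa false) (f.trans (tw h)) := by
    intro i x y hi
    have h2 := hf i x y
    unfold MM BB at h2
    show Rel pa false i (el pa x) (el pa y) ↔ Rel pa false i (el pa (tw h (f x)))
      (el pa (tw h (f y)))
    rw [el_tw, el_tw]
    simpa [hi] using h2
  obtain ⟨t, hF, ht⟩ := aut_shift h1
  refine ⟨t, hF, fun v => ?_⟩
  have h2 := ht (idx pa (Nat.pair v 0))
  rw [el_idx (valid_base pa v)] at h2
  have h3 : el pa ((f.trans (tw h)) (idx pa (Nat.pair v 0))) =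
      sh s (el pa (f (idx pa (Nat.pair v 0)))) := el_tw h _
  rw [h3] at h2
  have h4 : el pa (f (idx pa (Nat.pair v 0))) = sh s (sh t (Nat.pair v 0)) := by
    rw [← h2, sh_sh]
  rw [h4, sh_snd, sh_fst, sh_snd, Nat.unpair_pair, Nat.zero_xor]

theorem xor_rel {pa s t : ℕ → ℕ} (hF : Flow pa t) {u : ℕ} (hu : 1 ≤ u) :
    (((t (pa u) ^^^ s (pa u)).testBit u) ^^ par (t u ^^^ s u)) =
      (((s (pa u)).testBit u) ^^ par (s u)) := by
  rw [Nat.testBit_xor, par_xor, hF.par u hu]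
  cases par (t u) <;> cases (s (pa u)).testBit u <;> cases par (s u) <;> rfl

/-! ### persistent nodes -/

theorem pers_iff {d : Dat} {g : ℕ → ℕ} (hg : TP d g) {a j : ℕ} : Pers d g a j ↔
    d.J a = j + 1 ∧ (∀ s, a < s → ¬ lft d s a j) ∧ ∀ N, ∃ s, N ≤ s ∧ agr d s a j := by
  constructor
  · rintro ⟨h1, h2, h3⟩
    refine ⟨h1, h3, fun N => ?_⟩
    obtain ⟨s, h4, h5⟩ := hg.inf j N
    exact ⟨s, h4, h5.agr h2⟩
  · rintro ⟨h1, h2, h3⟩
    refine ⟨h1, ?_, h2⟩
    have key : ∀ i, i ≤ j → vis d g a i := by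
      intro i
      induction i with
      | zero => intro _ k hk; omega
      | succ i ih =>
        intro hi k hk
        by_cases hki : k < i
        · exact ih (by omega) k hki
        · have hk' : k = i := by omega
          subst hk'
          have hv := ih (by omega)
          obtain ⟨N, hN⟩ := hg.left k
          obtain ⟨s, h4, h5⟩ := h3 N
          have h6 : vis d g s k := hv.of_agr (h5.mono (by omega))
          have h7 := hN s h4 h6
          rw [h5 k (by omega)] at h7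
          obtain ⟨s', h8, h9⟩ := hg.inf (k + 1) (a + 1)
          by_contra hc
          refine h2 s' (by omega) ⟨k, by omega, (h9.mono (by omega)).agr hv, ?_⟩
          rw [h9 k (by omega)]
          omega
    exact key j (le_refl j)

/-- the persistent nodes on the first level -/
def P1 (d : Dat) (g : ℕ → ℕ) (u : ℕ) : Prop :=
  1 ≤ d.J u ∧ len (d.J u - 1) = 1 ∧ Pers d g u (d.J u - 1)

/-! ### the twist along paths -/

/-- the path with first entry `k` -/
def Gk (f0 : ℕ → ℕ) (k : ℕ) : ℕ → ℕ := fun i => Nat.casesOn i k f0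

def OnL (f0 : ℕ → ℕ) (j : ℕ) : Prop := 1 ≤ len j ∧ j = nod (Gk f0 (dig j 0)) (len j)

def nxl (f0 : ℕ → ℕ) (j : ℕ) : ℕ := nod (Gk f0 (dig j 0)) (len j + 1)

section
variable {f0 : ℕ → ℕ}

theorem dig0 (k n : ℕ) : dig (nod (Gk f0 k) (n + 1)) 0 = k := dig_nod _ (by omega)

theorem onL_nod (k n : ℕ) : OnL f0 (nod (Gk f0 k) (n + 1)) := by
  refine ⟨by rw [len_nod]; omega, ?_⟩
  rw [dig0, len_nod]

theorem nxl_nod (k n : ℕ) : nxl f0 (nod (Gk f0 k) (n + 1)) = nod (Gk f0 k) (n + 2) := by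
  unfold nxl
  rw [dig0, len_nod]

theorem OnL.form {j : ℕ} (h : OnL f0 j) : ∃ k n, len j = n + 1 ∧ j = nod (Gk f0 k) (n + 1) := by
  obtain ⟨h1, h2⟩ := h
  refine ⟨dig j 0, len j - 1, by omega, ?_⟩
  have : len j - 1 + 1 = len j := by omega
  rw [this]
  exact h2

theorem onL_one {j : ℕ} (h : len j = 1) : OnL f0 j := by
  refine ⟨by omega, ?_⟩
  exact nod_ext fun i hi => by
    have : i = 0 := by omega
    subst this
    rfl

end

/-- the persistent nodes on the chosen paths -/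
def Cn (d : Dat) (g f0 : ℕ → ℕ) (v : ℕ) : Prop :=
  1 ≤ d.J v ∧ Pers d g v (d.J v - 1) ∧ OnL f0 (d.J v - 1)

open Classical in
/-- the twist -/
noncomputable def ss (d : Dat) (g f0 W : ℕ → ℕ) (v : ℕ) : ℕ :=
  if Cn d g f0 v then 2 ^ W (nxl f0 (d.J v - 1)) else 0

section
variable {d : Dat} {g f0 W : ℕ → ℕ} {T : ℕ → Prop}

theorem ss_bit {v u : ℕ} : (ss d g f0 W v).testBit u = true ↔
    Cn d g f0 v ∧ u = W (nxl f0 (d.J v - 1)) := by
  classical
  unfold ss
  split_ifs with h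
  · rw [Nat.testBit_two_pow]
    simp only [h, true_and, decide_eq_true_eq]
    exact eq_comm
  · simp [h]

theorem ss_par {v : ℕ} : par (ss d g f0 W v) = true ↔ Cn d g f0 v := by
  classical
  unfold ss
  split_ifs with h
  · simp [h, par_two_pow]
  · simp [h, par_zero]

/-- the hypotheses on the labels -/
structure Hyp (T : ℕ → Prop) (d : Dat) (g f0 W : ℕ → ℕ) : Prop where
  S : Spec T prn d
  H : TH T prn
  tp : TP d g
  wp : ∀ j, T j → Pers d g (W j) j
  f : ∀ k n, T (nod (Gk f0 k) n)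

theorem Hyp.W_eq (h : Hyp T d g f0 W) {u j : ℕ} (hT : T j) (hu : Pers d g u j) : u = W j :=
  hu.uniq h.S h.H h.tp (h.wp j hT)

theorem Hyp.chl (h : Hyp T d g f0 W) : Chl d.pa (ss d g f0 W) := by
  intro v u hu
  obtain ⟨⟨h1, h2, h3⟩, h4⟩ := ss_bit.1 hu
  obtain ⟨k, n, _, hj⟩ := h3.form
  have h5 : nxl f0 (d.J v - 1) = nod (Gk f0 k) (n + 2) := by rw [hj, nxl_nod]
  have h6 : Pers d g u (nod (Gk f0 k) (n + 2)) := by
    rw [h4, h5]
    exact h.wp _ (h.f k _)
  obtain ⟨h7, h8⟩ := h6.pa h.S h.H (nod_pos _ (n + 1))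
  rw [prn_nod, ← hj] at h8
  exact ⟨h7, h8.uniq h.S h.H h.tp h2⟩

theorem Hyp.bit_iff (h : Hyp T d g f0 W) {u : ℕ} (_hu : 1 ≤ u) :
    (ss d g f0 W (d.pa u)).testBit u = true ↔ Cn d g f0 u ∧ 2 ≤ len (d.J u - 1) := by
  rw [ss_bit]
  constructor
  · rintro ⟨⟨h1, h2, h3⟩, h4⟩
    obtain ⟨k, n, _, hj⟩ := h3.form
    have h5 : nxl f0 (d.J (d.pa u) - 1) = nod (Gk f0 k) (n + 2) := by rw [hj, nxl_nod]
    have h6 : Pers d g u (nod (Gk f0 k) (n + 2)) := by
      rw [h4, h5]
      exact h.wp _ (h.f k _)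
    have h7 : d.J u - 1 = nod (Gk f0 k) (n + 2) := by
      have := h6.1
      omega
    refine ⟨⟨?_, ?_, ?_⟩, ?_⟩
    · have := h6.1; omega
    · rw [h7]; exact h6
    · rw [h7]; exact onL_nod k (n + 1)
    · rw [h7, len_nod]; omega
  · rintro ⟨⟨h1, h2, h3⟩, h4⟩
    obtain ⟨k, n, hn, hj⟩ := h3.form
    obtain ⟨m, rfl⟩ : ∃ m, n = m + 1 := ⟨n - 1, by omega⟩
    rw [hj] at h2
    obtain ⟨_, h5⟩ := h2.pa h.S h.H (nod_pos _ _)
    rw [prn_nod] at h5
    have h6 : d.J (d.pa u) - 1 = nod (Gk f0 k) (m + 1) := by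
      have := h5.1
      omega
    refine ⟨⟨?_, ?_, ?_⟩, ?_⟩
    · have := h5.1; omega
    · rw [h6]; exact h5
    · rw [h6]; exact onL_nod k m
    · rw [h6, nxl_nod]
      exact h.W_eq (h.f k _) h2

theorem Hyp.xor_iff (h : Hyp T d g f0 W) {u : ℕ} (hu : 1 ≤ u) :
    (((ss d g f0 W (d.pa u)).testBit u) ^^ par (ss d g f0 W u)) = true ↔ P1 d g u := by
  have h1 := h.bit_iff hu
  have h2 := ss_par (d := d) (g := g) (f0 := f0) (W := W) (v := u)
  have h3 : P1 d g u ↔ Cn d g f0 u ∧ ¬ 2 ≤ len (d.J u - 1) := by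
    unfold P1 Cn
    constructor
    · rintro ⟨h4, h5, h6⟩
      exact ⟨⟨h4, h6, onL_one h5⟩, by omega⟩
    · rintro ⟨⟨h4, h5, h6⟩, h7⟩
      have := h6.1
      exact ⟨h4, by omega, h5⟩
  rw [h3, ← h2]
  cases hb : (ss d g f0 W (d.pa u)).testBit u
  · rw [hb] at h1
    have h4 : ¬ (Cn d g f0 u ∧ 2 ≤ len (d.J u - 1)) := fun h5 => by
      have := h1.2 h5
      simp at this
    rw [Bool.false_xor]
    constructor
    · intro h5
      exact ⟨h5, fun h6 => h4 ⟨h2.1 h5, h6⟩⟩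
    · exact fun h5 => h5.1
  · rw [hb] at h1
    have h4 := h1.1 rfl
    have h5 := h2.2 h4.1
    rw [h5]
    simp [h4.2]

/-- a persistent node on the first level is a child of the root -/
theorem Hyp.P1_pa (h : Hyp T d g f0 W) {u : ℕ} (hu : P1 d g u) : 1 ≤ u ∧ d.pa u = 0 := by
  obtain ⟨h1, h2, h3⟩ := hu
  have h4 : 1 ≤ d.J u - 1 := by
    by_contra hc
    have h5 : d.J u - 1 = 0 := by omega
    rw [h5, len_zero] at h2
    omega
  obtain ⟨h5, h6⟩ := h3.pa h.S h.H h4
  have h7 : prn (d.J u - 1) = 0 := by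
    have h8 := len_prn h4
    have h9 := nod_ext (f := fun _ => 0) (j := prn (d.J u - 1)) fun i hi => by omega
    have h10 : len (prn (d.J u - 1)) = 0 := by omega
    rw [h10, nod_zero] at h9
    exact h9
  rw [h7] at h6
  exact ⟨h5, h6.uniq h.S h.H h.tp (pers_zero h.S)⟩

end

end Pool.Agent.Y670.HC
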