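import Mathlib
import Pool.Agent.Y670.HC.Str

set_option autoImplicit false
set_option maxHeartbeats 400000

namespace Pool.Agent.Y670.HC

open Encodable Denumerable Nat.Partrec Pool.Agent.Helper941 Pool.Agent.Helper941.IsoProb
open Pool.Agent.Helper941.Zeta Pool.Agent.Helper941.Hyp Pool.Agent.Helper941.Dim
open Pool.Agent.Y542

/-- `u` is the least bit of `X v` -/
def NX (X : ℕ → ℕ) (v u : ℕ) : Prop :=
  (X v).testBit u = true ∧ ∀ u' < u, ¬ (X v).testBit u' = true

theorem NX.uniq {X : ℕ → ℕ} {v u u' : ℕ} (h : NX X v u) (h' : NX X v u') : u = u' := by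
  rcases lt_trichotomy u u' with h1 | h1 | h1
  · exact (h'.2 u h1 h.1).elim
  · exact h1
  · exact (h.2 u' h1 h'.1).elim

theorem NX.exists {X : ℕ → ℕ} {v : ℕ} (h : par (X v) = true) : ∃ u, NX X v u := by
  classical
  have h1 := exists_of_par h
  exact ⟨Nat.find h1, Nat.find_spec h1, fun u' hu' => Nat.find_min h1 hu'⟩

/-- an odd chain along least bits gives a path of labels -/
theorem path_of_chain {T : ℕ → Prop} {d : Dat} (hS : Spec T prn d) (hT : TH T prn)
    {a : ℕ → ℕ} (h0 : prn (d.J (a 0) - 1) = 0) (h1 : ∀ k, 1 ≤ a k)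
    (h2 : ∀ k, d.pa (a (k + 1)) = a k) :
    ∃ l, IsPath T prn l ∧ ∀ k, d.J (a k) = l (k + 1) + 1 := by
  have hJ : ∀ k, d.J (a k) ≠ 0 := by
    intro k hc
    by_cases h4 : d.J (a (k + 1)) = 0
    · have h5 := hS.leaf (h1 (k + 1)) h4
      rw [h2 k] at h5
      have := h1 k
      omega
    · obtain ⟨j, hj⟩ : ∃ j, d.J (a (k + 1)) = j + 1 := ⟨d.J (a (k + 1)) - 1, by omega⟩
      obtain ⟨_, _, _, h5, _⟩ := hS.child hT (h1 (k + 1)) hj
      have := h5.1
      rw [h2 k, hc] at this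
      omega
  have hc : ∀ k, 1 ≤ d.J (a k) - 1 ∧ T (d.J (a k) - 1) := by
    intro k
    have h3 := hJ k
    obtain ⟨h4, h5, _, _, _⟩ := hS.child hT (h1 k)
      (show d.J (a k) = (d.J (a k) - 1) + 1 by omega)
    exact ⟨h4, h5⟩
  have hp : ∀ k, prn (d.J (a (k + 1)) - 1) = d.J (a k) - 1 := by
    intro k
    have h3 := hJ (k + 1)
    obtain ⟨_, _, _, h6, _⟩ := hS.child hT (h1 (k + 1))
      (show d.J (a (k + 1)) = (d.J (a (k + 1)) - 1) + 1 by omega)
    have := h6.1
    rw [h2 k] at this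
    omega
  refine ⟨fun k => Nat.casesOn k 0 fun k => d.J (a k) - 1, ⟨rfl, fun k => (hc k).1, fun k => ?_,
    fun k => (hc k).2⟩, fun k => ?_⟩
  · cases k with
    | zero => exact h0
    | succ k => exact hp k
  · have := hJ k
    show d.J (a k) = d.J (a k) - 1 + 1
    omega

variable {T0 : List ℕ → Prop} {d : Dat} {g f0 W : ℕ → ℕ}

/-- the combinatorial core: an isomorphism computes an infinite path -/
theorem path_of_iso (h : Hyp (HCT T0) d g f0 W) {f : ℕ ≃ ℕ}
    (hf : ∀ i x y, MM d.pa i x y ↔ BB d.pa (ss d g f0 W) i (f x) (f y)) :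
    ∃ (v0 : ℕ) (a F : ℕ → ℕ), a 0 = v0 ∧
      (∀ k, NX (fun v => (el d.pa (f (idx d.pa (Nat.pair v 0)))).unpair.2) (a k) (a (k + 1))) ∧
      (∀ n, T0 (rs F n)) ∧ ∀ i, F i = dig (d.J (a (i + 1)) - 1) (i + 1) := by
  set X : ℕ → ℕ := fun v => (el d.pa (f (idx d.pa (Nat.pair v 0)))).unpair.2 with hX
  have hs := h.chl
  obtain ⟨t, hF, ht⟩ := bb_iso_form hs hf
  have hXt : ∀ v, X v = t v ^^^ ss d g f0 W v := ht
  have hδ : ∀ u, 1 ≤ u → (((X (d.pa u)).testBit u ^^ par (X u)) = true ↔ P1 d g u) := by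
    intro u hu
    rw [hXt, hXt, xor_rel hF hu]
    exact h.xor_iff hu
  have hch : ∀ v u, (X v).testBit u = true → 1 ≤ u ∧ d.pa u = v := by
    intro v u hu
    rw [hXt, Nat.testBit_xor] at hu
    by_cases h1 : (t v).testBit u = true
    · exact hF.child _ _ h1
    · simp only [Bool.not_eq_true] at h1
      rw [h1] at hu
      simp only [Bool.false_bne] at hu
      exact hs _ _ hu
  -- the first level
  have hL : ∀ k, Pers d g (W (nod (Gk f0 k) 1)) (nod (Gk f0 k) 1) := fun k => h.wp _ (h.f k 1)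
  have hinj : Function.Injective fun k => W (nod (Gk f0 k) 1) := by
    intro k k' hk
    have hk' : W (nod (Gk f0 k) 1) = W (nod (Gk f0 k') 1) := hk
    have h1 := (hL k).1
    have h2 := (hL k').1
    rw [← hk'] at h2
    have h3 : nod (Gk f0 k) 1 = nod (Gk f0 k') 1 := by omega
    rw [← dig0 (f0 := f0) k 0, ← dig0 (f0 := f0) k' 0, h3]
  obtain ⟨k0, hk0⟩ : ∃ k, X 0 ≤ W (nod (Gk f0 k) 1) :=
    (hinj.nat_tendsto_atTop.eventually (Filter.eventually_ge_atTop (X 0))).exists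
  set v0 := W (nod (Gk f0 k0) 1) with hv0
  have hp0 : Pers d g v0 (nod (Gk f0 k0) 1) := hL k0
  have hJ0 : d.J v0 - 1 = nod (Gk f0 k0) 1 := by
    have := hp0.1
    omega
  have hP1 : P1 d g v0 := by
    refine ⟨by have := hp0.1; omega, ?_, ?_⟩
    · rw [hJ0, len_nod]
    · rw [hJ0]; exact hp0
  obtain ⟨hv1, hv2⟩ := h.P1_pa hP1
  have hpar0 : par (X v0) = true := by
    have h1 := (hδ v0 hv1).2 hP1
    rw [hv2] at h1
    have h2 : (X 0).testBit v0 = false := by
      by_contra hc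
      simp only [Bool.not_eq_false] at hc
      have := testBit_lt hc
      omega
    rw [h2] at h1
    simpa using h1
  -- the chain
  have hnx : ∀ v, ∃ u, par (X v) = true → NX X v u := by
    intro v
    by_cases h1 : par (X v) = true
    · obtain ⟨u, hu⟩ := NX.exists h1
      exact ⟨u, fun _ => hu⟩
    · exact ⟨0, fun h2 => (h1 h2).elim⟩
  choose nx hnx using hnx
  let a : ℕ → ℕ := fun k => nx^[k] v0
  have ha0 : a 0 = v0 := rfl
  have has : ∀ k, a (k + 1) = nx (a k) := fun k => Function.iterate_succ_apply' nx k v0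
  have hinv : ∀ k, 1 ≤ a k ∧ par (X (a k)) = true := by
    intro k
    induction k with
    | zero => exact ⟨hv1, hpar0⟩
    | succ k ih =>
      have h1 := hnx (a k) ih.2
      rw [← has k] at h1
      obtain ⟨h2, h3⟩ := hch _ _ h1.1
      refine ⟨h2, ?_⟩
      have h4 : ¬ P1 d g (a (k + 1)) := fun h5 => by
        have := (h.P1_pa h5).2
        rw [h3] at this
        omega
      have h5 := (hδ _ h2).not.2 h4
      rw [h3, h1.1] at h5
      simpa using h5
  have hNX : ∀ k, NX X (a k) (a (k + 1)) := by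
    intro k
    rw [has k]
    exact hnx (a k) (hinv k).2
  have hpa : ∀ k, d.pa (a (k + 1)) = a k := fun k => (hch _ _ (hNX k).1).2
  obtain ⟨l, hl, hla⟩ := path_of_chain h.S h.H (a := a)
    (by rw [ha0, hJ0, prn_nod, nod_zero]) (fun k => (hinv k).1) hpa
  obtain ⟨G, hG⟩ := path_nod hl
  refine ⟨v0, a, fun i => G (i + 1), ha0, hNX, fun n => ?_, fun i => ?_⟩
  · have h1 := hl.mem n
    rw [hG] at h1
    unfold HCT at h1
    rw [tlj_nod] at h1
    exact h1
  · have h1 := hla (i + 1)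
    rw [hG] at h1
    have h2 : d.J (a (i + 1)) - 1 = nod G (i + 1 + 1) := by omega
    rw [h2, dig_nod G (by omega)]

/-- there is no hyperarithmetic isomorphism onto the twisted copy -/
theorem no_hyp (h : Hyp (HCT T0) d g f0 W) (hpa : Computable d.pa) (hJ : Computable d.J)
    (hno : ∀ f, (∀ n, T0 (rs f n)) → ¬ Delta11 fun p : ℕ × ℕ => f p.1 = p.2) {f : ℕ ≃ ℕ}
    (hf : ∀ i x y, MM d.pa i x y ↔ BB d.pa (ss d g f0 W) i (f x) (f y)) :
    ¬ Delta11 fun p : ℕ × ℕ => f p.1 = p.2 := by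
  intro hd
  obtain ⟨v0, a, F, h0, h1, h2, h3⟩ := path_of_iso h hf
  set X : ℕ → ℕ := fun v => (el d.pa (f (idx d.pa (Nat.pair v 0)))).unpair.2 with hX
  apply hno F h2
  -- the bits of `X`
  have hE : Delta11 fun p : ℕ × ℕ => (X p.1).testBit p.2 = true := by
    have h4 : Delta11 fun q : (ℕ × ℕ) × ℕ => f (idx d.pa (Nat.pair q.1.1 0)) = q.2 ∧
        (el d.pa q.2).unpair.2.testBit q.1.2 = true := by
      refine (hd.comp (f := fun q : (ℕ × ℕ) × ℕ => (idx d.pa (Nat.pair q.1.1 0), q.2))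
        (c_pair ((c_idx hpa).comp (c_npair (c_fst (c_fst c_id)) (c_const 0)))
          (c_snd c_id))).and ?_
      exact Delta11.of_computable (p_testBit (c_up2 ((c_el hpa).comp (c_snd c_id)))
        (c_snd (c_fst c_id)))
    refine h4.ex.of_iff fun p => ?_
    constructor
    · intro h5
      exact ⟨_, rfl, h5⟩
    · rintro ⟨y, h5, h6⟩
      show (el d.pa (f (idx d.pa (Nat.pair p.1 0)))).unpair.2.testBit p.2 = true
      rw [h5]
      exact h6
  have hNX : Delta11 fun p : ℕ × ℕ => NX X p.1 p.2 := by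
    refine hE.and ?_
    exact Delta11.all (P := fun q : (ℕ × ℕ) × ℕ => q.2 < q.1.2 →
      ¬ (X q.1.1).testBit q.2 = true) ((Delta11.of_computable (p_lt (c_snd c_id)
        (c_snd (c_fst c_id)))).imp (hE.comp (f := fun q : (ℕ × ℕ) × ℕ => (q.1.1, q.2))
        (c_pair (c_fst (c_fst c_id)) (c_snd c_id))).not)
  have h5 : Delta11 fun q : (ℕ × ℕ) × ℕ => ent q.2 0 = v0 ∧
      (∀ j, j < q.1.1 + 1 → NX X (ent q.2 j) (ent q.2 (j + 1))) ∧
      dig (d.J (ent q.2 (q.1.1 + 1)) - 1) (q.1.1 + 1) = q.1.2 := by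
    refine (Delta11.of_computable (p_eq (c_ent (c_snd c_id) (c_const 0)) (c_const v0))).and
      (Delta11.and ?_ (Delta11.of_computable (p_eq (c_dig (c_sub (hJ.comp (c_ent (c_snd c_id)
        (c_succ (c_fst (c_fst c_id))))) (c_const 1)) (c_succ (c_fst (c_fst c_id))))
        (c_snd (c_fst c_id)))))
    refine Delta11.all (P := fun r : ((ℕ × ℕ) × ℕ) × ℕ => r.2 < r.1.1.1 + 1 →
      NX X (ent r.1.2 r.2) (ent r.1.2 (r.2 + 1))) ?_
    refine (Delta11.of_computable (p_lt (c_snd c_id)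
      (c_succ (c_fst (c_fst (c_fst c_id)))))).imp ?_
    exact hNX.comp (f := fun r : ((ℕ × ℕ) × ℕ) × ℕ => (ent r.1.2 r.2, ent r.1.2 (r.2 + 1)))
      (c_pair (c_ent (c_snd (c_fst c_id)) (c_snd c_id))
        (c_ent (c_snd (c_fst c_id)) (c_succ (c_snd c_id))))
  refine h5.ex.of_iff fun p => ?_
  obtain ⟨i, y⟩ := p
  simp only
  constructor
  · intro h6
    obtain ⟨c, hc⟩ := exists_ent (i + 2) a
    refine ⟨c, ?_, fun j hj => ?_, ?_⟩
    · rw [hc 0 (by omega), h0]
    · rw [hc j (by omega), hc (j + 1) (by omega)]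
      exact h1 j
    · rw [hc (i + 1) (by omega), ← h3 i]
      exact h6
  · rintro ⟨c, h6, h7, h8⟩
    have h9 : ∀ j, j ≤ i + 1 → ent c j = a j := by
      intro j
      induction j with
      | zero => intro _; rw [h6, h0]
      | succ j ih =>
        intro hj
        have h10 := h7 j (by omega)
        rw [ih (by omega)] at h10
        exact h10.uniq (h1 j)
    rw [h9 (i + 1) (le_refl _), ← h3 i] at h8
    exact h8

end Pool.Agent.Y670.HC
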