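import Mathlib
import Pool.Agent.Y670.HC.NoHyp
import Pool.Agent.Y670.HC.Defs

set_option autoImplicit false
set_option maxHeartbeats 400000

namespace Pool.Agent.Y670.HC

open Encodable Denumerable Nat.Partrec Pool.Agent.Helper941 Pool.Agent.Helper941.IsoProb
open Pool.Agent.Helper941.Zeta Pool.Agent.Helper941.Hyp Pool.Agent.Helper941.Dim
open Pool.Agent.Y542

/-! ### `Δ⁰_3` predicates -/

section
variable {α β : Type} [Primcodable α] [Primcodable β]

theorem d3_comp {P : α → Prop} (h : ComputablePred P) : Delta0 3 P :=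
  ⟨ComputablePred.sigma h, ComputablePred.pi h⟩

theorem d3_and {P Q : α → Prop} (h : Delta0 3 P) (h' : Delta0 3 Q) :
    Delta0 3 fun a => P a ∧ Q a := ⟨h.1.and h'.1, h.2.and h'.2⟩

theorem d3_or {P Q : α → Prop} (h : Delta0 3 P) (h' : Delta0 3 Q) :
    Delta0 3 fun a => P a ∨ Q a := ⟨h.1.or h'.1, h.2.or h'.2⟩

theorem d3_not {P : α → Prop} (h : Delta0 3 P) : Delta0 3 fun a => ¬ P a :=
  ⟨h.2, Sigma0.not h.1⟩

theorem d3_of_iff {P Q : α → Prop} (h : Delta0 3 P) (e : ∀ a, Q a ↔ P a) : Delta0 3 Q :=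
  ⟨h.1.of_iff e, Pi0.of_iff h.2 e⟩

theorem d3_iff {P Q : α → Prop} (h : Delta0 3 P) (h' : Delta0 3 Q) :
    Delta0 3 fun a => (P a ↔ Q a) :=
  d3_of_iff (d3_or (d3_and h h') (d3_and (d3_not h) (d3_not h'))) fun a => by tauto

theorem d3_cp {P : β → Prop} (h : Delta0 3 P) {f : α → β} (hf : Computable f) :
    Delta0 3 fun a => P (f a) := ⟨h.1.comp hf, Pi0.comp h.2 hf⟩

/-- arithmetical predicates are hyperarithmetic -/
theorem sigma0_delta (n : ℕ) : ∀ {α : Type} [Primcodable α] {P : α → Prop},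
    Sigma0 n P → Delta11 P := by
  induction n with
  | zero => intro α _ P h; exact Delta11.of_computable h
  | succ n ih =>
    intro α _ P h
    obtain ⟨Q, hQ, e⟩ := h
    exact (ih hQ).not.ex.of_iff e

end

/-! ### the complexity of the copy -/

section
variable {T : ℕ → Prop}

theorem p_agr (hT : ComputablePred T) {α : Type} [Primcodable α] {s s' e : α → ℕ}
    (hs : Computable s) (hs' : Computable s') (he : Computable e) :
    ComputablePred fun a => agr (con T prn) (s a) (s' a) (e a) :=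
  p_ball he (p_eq (con_O hT c_prn (hs.comp (c_fst c_id)) (c_snd c_id))
    (con_O hT c_prn (hs'.comp (c_fst c_id)) (c_snd c_id)))

theorem p_lft (hT : ComputablePred T) {α : Type} [Primcodable α] {s s' e : α → ℕ}
    (hs : Computable s) (hs' : Computable s') (he : Computable e) :
    ComputablePred fun a => lft (con T prn) (s a) (s' a) (e a) :=
  p_bex he (p_and (p_agr hT (hs.comp (c_fst c_id)) (hs'.comp (c_fst c_id)) (c_snd c_id))
    (p_lt (con_O hT c_prn (hs.comp (c_fst c_id)) (c_snd c_id))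
      (con_O hT c_prn (hs'.comp (c_fst c_id)) (c_snd c_id))))

theorem p1_iff {d : Dat} {g : ℕ → ℕ} (hg : TP d g) (u : ℕ) : P1 d g u ↔
    (1 ≤ d.J u ∧ len (d.J u - 1) = 1) ∧ (∀ s, u < s → ¬ lft d s u (d.J u - 1)) ∧
      ∀ N, ∃ s, N ≤ s ∧ agr d s u (d.J u - 1) := by
  unfold P1
  rw [pers_iff hg]
  constructor
  · rintro ⟨h1, h2, _, h4, h5⟩
    exact ⟨⟨h1, h2⟩, h4, h5⟩
  · rintro ⟨⟨h1, h2⟩, h4, h5⟩
    exact ⟨h1, h2, by omega, h4, h5⟩

theorem p1_pi (hT : ComputablePred T) {g : ℕ → ℕ} (hg : TP (con T prn) g) :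
    Pi0 2 (P1 (con T prn) g) := by
  have hJ : Computable fun u : ℕ => (con T prn).J u := con_J hT c_prn c_id
  have hJ' : Computable fun u : ℕ => (con T prn).J u - 1 := c_sub hJ (c_const 1)
  have h1 : Pi0 2 fun u : ℕ => 1 ≤ (con T prn).J u ∧ len ((con T prn).J u - 1) = 1 :=
    ComputablePred.pi (p_and (p_le (c_const 1) hJ) (p_eq (c_lenj hJ') (c_const 1)))
  have h2 : Pi0 (1 + 1) fun u : ℕ => ∀ s, u < s → ¬ lft (con T prn) s u
      ((con T prn).J u - 1) := by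
    refine Pi0.all (P := fun p : ℕ × ℕ => p.1 < p.2 → ¬ lft (con T prn) p.2 p.1
      ((con T prn).J p.1 - 1)) (ComputablePred.pi ?_)
    exact p_imp (p_lt (c_fst c_id) (c_snd c_id)) (p_not (p_lft hT (c_snd c_id) (c_fst c_id)
      (hJ'.comp (c_fst c_id))))
  have h3 : Pi0 (1 + 1) fun u : ℕ => ∀ N, ∃ s, N ≤ s ∧ agr (con T prn) s u
      ((con T prn).J u - 1) := by
    refine Pi0.all (P := fun p : ℕ × ℕ => ∃ s, p.2 ≤ s ∧ agr (con T prn) s p.1
      ((con T prn).J p.1 - 1)) (Sigma0.toPi ?_)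
    refine Sigma0.ex (n := 0) (P := fun q : (ℕ × ℕ) × ℕ => q.1.2 ≤ q.2 ∧
      agr (con T prn) q.2 q.1.1 ((con T prn).J q.1.1 - 1)) (ComputablePred.sigma ?_)
    exact p_and (p_le (c_snd (c_fst c_id)) (c_snd c_id)) (p_agr hT (c_snd c_id)
      (c_fst (c_fst c_id)) (hJ'.comp (c_fst (c_fst c_id))))
  exact Pi0.of_iff (h1.and (h2.and h3)) fun u => p1_iff hg u

theorem p1_d3 (hT : ComputablePred T) {g : ℕ → ℕ} (hg : TP (con T prn) g) :
    Delta0 3 (P1 (con T prn) g) := ⟨(p1_pi hT hg).toSigma, (p1_pi hT hg).succ⟩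

/-- the relations of the twisted copy -/
theorem bb_rel {pa s : ℕ → ℕ} {P : ℕ → Prop}
    (hP : ∀ u, 1 ≤ u → ((((s (pa u)).testBit u) ^^ par (s u)) = true ↔ P u)) (i x y : ℕ) :
    BB pa s i x y ↔ i ≠ 0 ∧
      ((i.unpair.1 = 1 ∧ el pa x = el pa y ∧ (el pa x).unpair.1 = i.unpair.2) ∨
      (i.unpair.1 = 2 ∧ 1 ≤ i.unpair.2 ∧ (el pa x).unpair.1 = pa i.unpair.2 ∧
        (el pa y).unpair.1 = pa i.unpair.2 ∧
        (el pa y).unpair.2 = (el pa x).unpair.2 ^^^ 2 ^ i.unpair.2) ∨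
      (i.unpair.1 = 3 ∧ 1 ≤ i.unpair.2 ∧ (el pa x).unpair.1 = pa i.unpair.2 ∧
        (el pa y).unpair.1 = i.unpair.2 ∧ (P i.unpair.2 ↔
        ¬ (el pa x).unpair.2.testBit i.unpair.2 = par (el pa y).unpair.2))) := by
  unfold BB
  refine and_congr_right fun hi => ?_
  set p := el pa x with hp
  set q := el pa y with hq
  have hinj : sh s p = sh s q ↔ p = q := by
    constructor
    · intro e
      rw [← sh_sh s p, e, sh_sh]
    · intro e; rw [e]
  unfold Dim.Rel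
  simp only [hi, false_and, false_or, hinj, sh_fst, sh_snd]
  refine or_congr Iff.rfl (or_congr ?_ ?_)
  · refine and_congr_right fun _ => and_congr_right fun _ => and_congr_right fun h1 =>
      and_congr_right fun h2 => ?_
    rw [h1, h2]
    constructor
    · intro h3
      have h4 : (q.unpair.2 ^^^ s (pa i.unpair.2)) ^^^ s (pa i.unpair.2) =
          ((p.unpair.2 ^^^ s (pa i.unpair.2)) ^^^ 2 ^ i.unpair.2) ^^^ s (pa i.unpair.2) := by
        rw [h3]
      rw [Nat.xor_assoc, Nat.xor_self, Nat.xor_zero] at h4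
      rw [h4, Nat.xor_assoc, Nat.xor_assoc, Nat.xor_comm (2 ^ i.unpair.2),
        ← Nat.xor_assoc (s (pa i.unpair.2)), Nat.xor_self, Nat.zero_xor]
    · intro h3
      rw [h3, Nat.xor_assoc, Nat.xor_assoc, Nat.xor_comm (2 ^ i.unpair.2)]
  · refine and_congr_right fun _ => and_congr_right fun hu => and_congr_right fun h1 =>
      and_congr_right fun h2 => ?_
    rw [h1, h2, Nat.testBit_xor, par_xor, ← hP _ hu]
    cases p.unpair.2.testBit i.unpair.2 <;> cases (s (pa i.unpair.2)).testBit i.unpair.2 <;>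
      cases par q.unpair.2 <;> cases par (s i.unpair.2) <;> simp

theorem bb_d3 {pa s : ℕ → ℕ} {P : ℕ → Prop} (hpa : Computable pa)
    (hP : ∀ u, 1 ≤ u → ((((s (pa u)).testBit u) ^^ par (s u)) = true ↔ P u))
    (h3 : Delta0 3 P) : Delta0 3 fun q : ℕ × ℕ × ℕ => BB pa s q.1 q.2.1 q.2.2 := by
  have hel : Computable (el pa) := c_el hpa
  have i : Computable fun q : ℕ × ℕ × ℕ => q.1 := c_fst c_id
  have p : Computable fun q : ℕ × ℕ × ℕ => el pa q.2.1 := hel.comp (c_fst (c_snd c_id))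
  have q : Computable fun q : ℕ × ℕ × ℕ => el pa q.2.2 := hel.comp (c_snd (c_snd c_id))
  refine d3_of_iff ?_ fun r => bb_rel hP r.1 r.2.1 r.2.2
  refine d3_and (d3_comp (p_not (p_eq i (c_const 0)))) (d3_or (d3_comp
    (p_and (p_eq (c_up1 i) (c_const 1)) (p_and (p_eq p q) (p_eq (c_up1 p) (c_up2 i)))))
    (d3_or (d3_comp (p_and (p_eq (c_up1 i) (c_const 2))
    (p_and (p_le (c_const 1) (c_up2 i)) (p_and (p_eq (c_up1 p) (hpa.comp (c_up2 i)))
    (p_and (p_eq (c_up1 q) (hpa.comp (c_up2 i))) (p_eq (c_up2 q)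
      (c_xor (c_up2 p) (c_pow (c_up2 i)))))))))
    (d3_and (d3_comp (p_eq (c_up1 i) (c_const 3))) (d3_and (d3_comp
      (p_le (c_const 1) (c_up2 i))) (d3_and (d3_comp (p_eq (c_up1 p) (hpa.comp (c_up2 i))))
      (d3_and (d3_comp (p_eq (c_up1 q) (c_up2 i))) (d3_iff (d3_cp h3 (c_up2 i))
        (d3_comp (p_not (p_eqb (c_testBit (c_up2 p) (c_up2 i)) (c_par (c_up2 q))))))))))))

theorem diag_d3 {B : Str} (hB : Delta0 3 fun q : ℕ × ℕ × ℕ => B q.1 q.2.1 q.2.2) :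
    Delta0 3 (Diag (toS B)) := by
  have hl : Computable fun x : ℕ => ofNat (List ℕ) x.unpair.2 :=
    (Computable.ofNat (List ℕ)).comp (c_up2 c_id)
  refine d3_of_iff (d3_and (d3_comp (p_eq (Computable.list_length.comp hl) (c_const 2)))
    (d3_cp hB (f := fun x : ℕ => (x.unpair.1, gt (ofNat (List ℕ) x.unpair.2) 0,
      gt (ofNat (List ℕ) x.unpair.2) 1)) (c_pair (c_up1 c_id) (c_pair (c_gt hl (c_const 0))
        (c_gt hl (c_const 1)))))) fun x => diag_iff B x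

end

/-! ### relativized notions -/

theorem sigma_of_in {D : ℕ → Prop} (hD : Delta11 D) {α : Type} [Primcodable α] {P : α → Prop}
    (h : Sigma11In D P) : Sigma11 P := by
  obtain ⟨R, hR, e⟩ := h
  have hQ : SigF fun (a : α) f => ∃ g : ℕ → ℕ, ∀ n, R (a, rs f n, rs g n) :=
    ⟨R, hR, fun _ _ => Iff.rfl⟩
  have hv : ∀ c : ℕ, DelF fun (p : α × ℕ) f => f p.2 = c := fun c =>
    DelF.val (Q := fun q : (α × ℕ) × ℕ => q.2 = c) (u := fun p : α × ℕ => p.2)
      (p_eq (c_snd c_id) (c_const c)) (c_snd c_id)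
  have hD' : DelF fun (p : α × ℕ) (_ : ℕ → ℕ) => D p.2 := DelF.of_delta (hD.comp (c_snd c_id))
  have hW : DelF fun (_ : α) f => ∀ n, (f n = 1 ∧ D n) ∨ (f n = 0 ∧ ¬ D n) :=
    DelF.all (P := fun (p : α × ℕ) f => (f p.2 = 1 ∧ D p.2) ∨ (f p.2 = 0 ∧ ¬ D p.2))
      (((hv 1).and hD').or ((hv 0).and hD'.not))
  refine (hW.1.and hQ).fn.of_iff fun a => ?_
  rw [e a]
  constructor
  · intro h1
    refine ⟨chr D, fun n => ?_, h1⟩
    unfold chr
    by_cases hn : D n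
    · exact Or.inl ⟨if_pos hn, hn⟩
    · exact Or.inr ⟨if_neg hn, hn⟩
  · rintro ⟨f, h1, h2⟩
    have h3 : f = chr D := by
      funext n
      unfold chr
      rcases h1 n with ⟨h4, h5⟩ | ⟨h4, h5⟩
      · rw [if_pos h5, h4]
      · rw [if_neg h5, h4]
    rw [h3] at h2
    exact h2

theorem delta_of_in {D : ℕ → Prop} (hD : Delta11 D) {α : Type} [Primcodable α] {P : α → Prop}
    (h : Delta11In D P) : Delta11 P := ⟨sigma_of_in hD h.1, sigma_of_in hD h.2⟩

theorem isom_toS {A B : Str} {f : ℕ ≃ ℕ} : IsIsom (toS A) (toS B) f ↔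
    ∀ i x y, A i x y ↔ B i (f x) (f y) :=
  ⟨fun h i x y => h i ![x, y], fun h i v => h i (v 0) (v 1)⟩

/-- the main theorem -/
theorem main : ∃ ar : ℕ → ℕ, Computable ar ∧ ∃ A : Struct ar, IsComputable A ∧ CompCat A ∧
    ∃ B : Struct ar, Iso A B ∧ Delta0 3 (Diag B) ∧ ∀ f : ℕ ≃ ℕ, IsIsom A B f → ¬ HypIn f B := by
  obtain ⟨T0, hT0, hcl, ⟨f0, hf0⟩, hno⟩ := exists_tree
  have hT : ComputablePred (HCT T0) := p_HC hT0
  have hTH : TH (HCT T0) prn := th_HC hcl (hf0 0)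
  have hS := con_spec (HCT T0) prn
  obtain ⟨g, hg⟩ := exists_tp (d := con (HCT T0) prn) hS.O_le
  choose! W hW using fun j => pers_exists hS hg j
  have hyp : Hyp (HCT T0) (con (HCT T0) prn) g f0 W := by
    refine ⟨hS, hTH, hg, hW, fun k n => ?_⟩
    cases n with
    | zero => exact hTH.zero
    | succ n =>
      unfold HCT
      rw [tlj_nod]
      exact hf0 n
  have hpa : Computable (con (HCT T0) prn).pa := con_pa hT c_prn
  have hJ : Computable (con (HCT T0) prn).J := con_J hT c_prn c_id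
  set pa := (con (HCT T0) prn).pa with hpadef
  set s := ss (con (HCT T0) prn) g f0 W with hs
  have hchl : Chl pa s := hyp.chl
  have hd3 : Delta0 3 (Diag (toS (BB pa s))) :=
    diag_d3 (bb_d3 hpa (fun u hu => hyp.xor_iff hu) (p1_d3 hT hg))
  have hiso : IsIsom (toS (MM pa)) (toS (BB pa s)) (tw hchl) := isom_toS.2 (bb_iso hchl)
  have hnot : ∀ f : ℕ ≃ ℕ, IsIsom (toS (MM pa)) (toS (BB pa s)) f →
      ¬ Delta11 fun p : ℕ × ℕ => f p.1 = p.2 :=
    fun f hf => no_hyp hyp hpa hJ hno (isom_toS.1 hf)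
  refine ⟨ar2, Computable.const 2, toS (MM pa), ?_, ?_, toS (BB pa s), ⟨_, hiso⟩, hd3,
    fun f hf hd => hnot f hf (delta_of_in (sigma0_delta 3 hd3.1) hd)⟩
  · have hM : ComputablePred fun q : ℕ × ℕ × ℕ × ℕ => MM pa q.2.1 q.2.2.1 q.2.2.2 :=
      computablePred_comp (P := fun q : ℕ × ℕ × ℕ => MM pa q.1 q.2.1 q.2.2) (mm_comp hpa)
        (c_snd c_id)
    obtain ⟨e, _, he⟩ := exists_idx (β := ℕ) (M := fun _ => MM pa) hM
    exact ⟨e 0, he 0⟩
  · intro B C hB hC hAB hAC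
    have key : ∀ D : Struct ar2, IsComputable D → Iso (toS (MM pa)) D →
        ∃ h : ℕ ≃ ℕ, IsIsom (toS (MM pa)) D h ∧ Computable h := by
      rintro D ⟨e, he⟩ hD
      obtain ⟨h1, h2⟩ := eq_of_index he
      rw [h2] at hD ⊢
      obtain ⟨f, hf⟩ := iso_toS.1 hD
      obtain ⟨h, h3, h4⟩ := mm_cc hT hTH (comp_SI h1) hf
      exact ⟨h, isom_toS.2 h3, h4⟩
    obtain ⟨f, hf, hfc⟩ := key B hB hAB
    obtain ⟨k, hk, hkc⟩ := key C hC hAC
    refine ⟨f.symm.trans k, fun i v => ?_, hkc.comp (computable_symm hfc)⟩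
    have h1 := hf i fun j => f.symm (v j)
    have h2 := hk i fun j => f.symm (v j)
    simp only [Equiv.apply_symm_apply] at h1
    rw [← h1, h2]
    rfl

/-- in particular `A` is not relatively hyperarithmetically categorical -/
theorem main' : ∃ ar : ℕ → ℕ, Computable ar ∧ ∃ A : Struct ar, IsComputable A ∧ CompCat A ∧
    ¬ RelHypCat A := by
  obtain ⟨ar, h1, A, h2, h3, B, h4, _, h5⟩ := main
  refine ⟨ar, h1, A, h2, h3, fun h => ?_⟩
  obtain ⟨f, hf, hd⟩ := h B h4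
  exact h5 f hf hd

end Pool.Agent.Y670.HC
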